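import Mathlib

set_option autoImplicit false
set_option linter.unusedVariables false

/-!
Fekete's lemma and the selection of good scales.
-/

namespace Pool.Agent.LHF81

open Filter Topology

/-- selection of good scales for a nonnegative sequence with sublinear growth -/
lemma exists_scale (a : ℕ → ℝ) (ha0 : ∀ n, 0 ≤ a n)
    (hlim : Tendsto (fun n : ℕ => a n / n) atTop (𝓝 0)) :
    ∃ A : ℝ, 0 ≤ A ∧ ∀ M : ℕ, ∃ n, M ≤ n ∧ ∀ n', n ≤ n' + M → n' ≤ n + M → a n' ≤ a n + A := by
  by_cases hb : ∃ B, ∀ n, a n ≤ B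
  · obtain ⟨B, hB⟩ := hb
    refine ⟨B, (ha0 0).trans (hB 0), fun M => ⟨M, le_rfl, fun n' _ _ => ?_⟩⟩
    have := hB n'
    have := ha0 M
    linarith
  · push Not at hb
    refine ⟨1, zero_le_one, fun M => ?_⟩
    set B : ℝ := ∑ i ∈ Finset.range (M + 1), a i with hB
    have hBi : ∀ i ≤ M, a i ≤ B := fun i hi =>
      Finset.single_le_sum (f := a) (fun _ _ => ha0 _) (Finset.mem_range.mpr (by omega))
    have hB0 : 0 ≤ B := (ha0 0).trans (hBi 0 (Nat.zero_le _))
    obtain ⟨n1, hn1⟩ := hb (B + 1)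
    set ε : ℝ := 1 / ((n1 : ℝ) + M + 1) with hε
    have hε0 : 0 < ε := by positivity
    have hεn : ε * n1 ≤ 1 := by
      rw [hε, div_mul_eq_mul_div, div_le_one (by positivity)]
      have : (0 : ℝ) ≤ M := Nat.cast_nonneg _
      linarith
    have hεM : ε * M ≤ 1 := by
      rw [hε, div_mul_eq_mul_div, div_le_one (by positivity)]
      have : (0 : ℝ) ≤ n1 := Nat.cast_nonneg _
      linarith
    have hev : ∀ᶠ n : ℕ in atTop, a n / n < ε := hlim.eventually (gt_mem_nhds hε0)
    obtain ⟨N2, hN2⟩ := eventually_atTop.mp hev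
    set f : ℕ → ℝ := fun n => a n - ε * n with hf
    have hfar : ∀ n, N2 + 1 ≤ n → f n ≤ 0 := by
      intro n hn
      have h1 := hN2 n (by omega)
      have hnpos : (0 : ℝ) < n := by exact_mod_cast (by omega : 0 < n)
      rw [div_lt_iff₀ hnpos] at h1
      simp only [hf]; linarith
    have hfn1 : B < f n1 := by simp only [hf]; linarith
    obtain ⟨ns, -, hns⟩ := Finset.exists_max_image (Finset.range (N2 + n1 + 1)) f
      ⟨n1, Finset.mem_range.mpr (by omega)⟩
    have hmax1 : f n1 ≤ f ns := hns n1 (Finset.mem_range.mpr (by omega))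
    have hmax : ∀ n, f n ≤ f ns := by
      intro n
      by_cases hn : n < N2 + n1 + 1
      · exact hns n (Finset.mem_range.mpr hn)
      · have := hfar n (by omega)
        linarith
    have hMns : M < ns := by
      by_contra hcon
      push Not at hcon
      have h1 := hBi ns hcon
      have h2 : f ns ≤ a ns := by
        simp only [hf]
        have : 0 ≤ ε * ns := by positivity
        linarith
      linarith
    refine ⟨ns, hMns.le, fun n' h1 h2 => ?_⟩
    have h3 := hmax n'
    simp only [hf] at h3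
    have h4 : (n' : ℝ) ≤ ns + M := by exact_mod_cast h2
    have h5 : ε * n' ≤ ε * (ns + M) := by gcongr
    rw [mul_add] at h5
    linarith

/-- Fekete dichotomy for submultiplicative sequences -/
lemma fekete {W : ℕ → ℕ} (hW1 : ∀ n, 1 ≤ W n) (hW : ∀ m n, W (m + n) ≤ W m * W n) :
    (∀ c : ℝ, 0 < c → ∃ C : ℝ, 0 ≤ C ∧ ∀ n, (W n : ℝ) ≤ C * Real.exp (c * n)) ∨
    ∃ κ : ℝ, 0 < κ ∧ (∀ n : ℕ, Real.exp (κ * n) ≤ W n) ∧ ∃ A : ℝ, 0 ≤ A ∧ ∀ M : ℕ, ∃ n, M ≤ n ∧
      ∀ n', n ≤ n' + M → n' ≤ n + M →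
        (W n' : ℝ) ≤ Real.exp A * (W n * Real.exp (κ * ((n' : ℝ) - n))) := by
  have hpos : ∀ n, (0 : ℝ) < W n := fun n => by exact_mod_cast hW1 n
  set u : ℕ → ℝ := fun n => Real.log (W n) with hu
  have hu0 : ∀ n, 0 ≤ u n := fun n => Real.log_nonneg (by exact_mod_cast hW1 n)
  have hsub : Subadditive u := by
    intro m n
    simp only [hu]
    rw [← Real.log_mul (hpos m).ne' (hpos n).ne']
    apply Real.log_le_log (hpos _)
    exact_mod_cast hW m n
  have hbdd : BddBelow (Set.range fun n : ℕ => u n / n) := by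
    refine ⟨0, ?_⟩
    rintro _ ⟨n, rfl⟩
    have := hu0 n
    positivity
  have hlim := hsub.tendsto_lim hbdd
  set κ := hsub.lim with hκ
  have hlow : ∀ n : ℕ, κ * n ≤ u n := by
    intro n
    rcases Nat.eq_zero_or_pos n with h | h
    · subst h
      simpa using hu0 0
    · have h1 := hsub.lim_le_div hbdd h.ne'
      rwa [le_div_iff₀ (by exact_mod_cast h)] at h1
  have hexp : ∀ n, Real.exp (u n) = W n := fun n => Real.exp_log (hpos n)
  rcases le_or_gt κ 0 with hk | hk
  · left
    intro c hc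
    have hev : ∀ᶠ n : ℕ in atTop, u n / n < c := hlim.eventually (gt_mem_nhds (by linarith))
    obtain ⟨N, hN⟩ := eventually_atTop.mp hev
    refine ⟨1 + ∑ i ∈ Finset.range (N + 1), (W i : ℝ), by positivity, fun n => ?_⟩
    have hsum0 : 0 ≤ ∑ i ∈ Finset.range (N + 1), (W i : ℝ) :=
      Finset.sum_nonneg fun _ _ => Nat.cast_nonneg _
    by_cases hn : n ≤ N
    · have h1 : (W n : ℝ) ≤ ∑ i ∈ Finset.range (N + 1), (W i : ℝ) :=
        Finset.single_le_sum (f := fun i => (W i : ℝ)) (fun _ _ => Nat.cast_nonneg _)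
          (Finset.mem_range.mpr (by omega))
      have h2 : 1 ≤ Real.exp (c * n) := Real.one_le_exp (by positivity)
      nlinarith
    · push Not at hn
      have h1 := hN n hn.le
      have hnpos : (0 : ℝ) < n := by exact_mod_cast (by omega : 0 < n)
      rw [div_lt_iff₀ hnpos] at h1
      have h2 : (W n : ℝ) ≤ Real.exp (c * n) := by
        rw [← hexp n]
        exact Real.exp_le_exp.mpr h1.le
      have h3 := Real.exp_pos (c * n)
      nlinarith
  · right
    refine ⟨κ, hk, fun n => ?_, ?_⟩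
    · rw [← hexp n]
      exact Real.exp_le_exp.mpr (hlow n)
    · have hlim' : Tendsto (fun n : ℕ => (u n - κ * n) / n) atTop (𝓝 0) := by
        have h1 : Tendsto (fun n : ℕ => u n / n - κ) atTop (𝓝 0) := by
          have := hlim.sub_const κ
          simpa using this
        refine h1.congr' ?_
        filter_upwards [eventually_gt_atTop 0] with n hn
        have hnpos : (n : ℝ) ≠ 0 := by exact_mod_cast hn.ne'
        field_simp
      obtain ⟨A, hA0, hA⟩ := exists_scale (fun n => u n - κ * n)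
        (fun n => by have := hlow n; linarith) hlim'
      refine ⟨A, hA0, fun M => ?_⟩
      obtain ⟨n, hn, hn'⟩ := hA M
      refine ⟨n, hn, fun n' h1 h2 => ?_⟩
      have h3 := hn' n' h1 h2
      rw [← hexp n', ← hexp n, ← Real.exp_add, ← Real.exp_add]
      apply Real.exp_le_exp.mpr
      linarith

end Pool.Agent.LHF81
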