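import Mathlib

set_option autoImplicit false
set_option linter.unusedVariables false

/-!
Word length with respect to a finite set, growth of conjugates, Fekete's lemma.
-/

namespace Pool.Agent.LHF81

variable {G : Type*} [Group G]

/-- `x` is a product of at most `n` letters of `T` and their inverses -/
def WL (T : Set G) (n : ℕ) (x : G) : Prop :=
  ∃ l : List G, (∀ t ∈ l, t ∈ T ∨ t⁻¹ ∈ T) ∧ l.prod = x ∧ l.length ≤ n

/-- word length -/
noncomputable def wl (T : Set G) (x : G) : ℕ := sInf {n | WL T n x}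

lemma WL.mono {T : Set G} {m n : ℕ} (h : m ≤ n) {x : G} (hx : WL T m x) : WL T n x := by
  obtain ⟨l, h1, h2, h3⟩ := hx
  exact ⟨l, h1, h2, h3.trans h⟩

lemma WL.one (T : Set G) : WL T 0 (1 : G) := ⟨[], by simp, by simp, by simp⟩

lemma WL.mul {T : Set G} {m n : ℕ} {x y : G} (hx : WL T m x) (hy : WL T n y) :
    WL T (m + n) (x * y) := by
  obtain ⟨l, h1, h2, h3⟩ := hx
  obtain ⟨l', h1', h2', h3'⟩ := hy
  refine ⟨l ++ l', ?_, by rw [List.prod_append, h2, h2'], by rw [List.length_append]; omega⟩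
  intro t ht
  rcases List.mem_append.mp ht with h | h
  · exact h1 t h
  · exact h1' t h

lemma WL.inv {T : Set G} {n : ℕ} {x : G} (hx : WL T n x) : WL T n x⁻¹ := by
  obtain ⟨l, h1, h2, h3⟩ := hx
  refine ⟨(l.map (fun x => x⁻¹)).reverse, ?_, ?_, by simpa using h3⟩
  · intro t ht
    rw [List.mem_reverse, List.mem_map] at ht
    obtain ⟨s, hs, rfl⟩ := ht
    rw [inv_inv]
    exact (h1 s hs).symm
  · rw [← h2, List.prod_inv_reverse]

lemma WL.of_mem {T : Set G} {x : G} (hx : x ∈ T) : WL T 1 x :=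
  ⟨[x], by simp [hx], by simp, by simp⟩

lemma exists_WL {T : Set G} {x : G} (hx : x ∈ Subgroup.closure T) : ∃ n, WL T n x := by
  induction hx using Subgroup.closure_induction with
  | mem x hx => exact ⟨1, WL.of_mem hx⟩
  | one => exact ⟨0, WL.one T⟩
  | mul a b _ _ iha ihb =>
    obtain ⟨m, hm⟩ := iha
    obtain ⟨n, hn⟩ := ihb
    exact ⟨_, hm.mul hn⟩
  | inv a _ iha =>
    obtain ⟨m, hm⟩ := iha
    exact ⟨_, hm.inv⟩

lemma wl_spec {T : Set G} {x : G} (hx : x ∈ Subgroup.closure T) : WL T (wl T x) x :=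
  Nat.sInf_mem (s := {n | WL T n x}) (exists_WL hx)

lemma wl_le {T : Set G} {n : ℕ} {x : G} (hx : WL T n x) : wl T x ≤ n :=
  Nat.sInf_le (s := {n | WL T n x}) hx

lemma wl_one (T : Set G) : wl T (1 : G) = 0 := Nat.le_zero.mp (wl_le (WL.one T))

lemma wl_mul {T : Set G} {x y : G} (hx : x ∈ Subgroup.closure T) (hy : y ∈ Subgroup.closure T) :
    wl T (x * y) ≤ wl T x + wl T y :=
  wl_le ((wl_spec hx).mul (wl_spec hy))

lemma wl_inv_le {T : Set G} {x : G} (hx : x ∈ Subgroup.closure T) : wl T x⁻¹ ≤ wl T x :=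
  wl_le (wl_spec hx).inv

/-- a homomorphism that sends letters to elements of length at most `W` -/
lemma wl_map_le {T : Set G} (f : G →* G) (hf : ∀ y ∈ T, f y ∈ Subgroup.closure T) {W : ℕ}
    (hW : ∀ y ∈ T, wl T (f y) ≤ W) {x : G} (hx : x ∈ Subgroup.closure T) :
    wl T (f x) ≤ wl T x * W := by
  obtain ⟨l, h1, h2, h3⟩ := wl_spec hx
  have key : ∀ l : List G, (∀ t ∈ l, t ∈ T ∨ t⁻¹ ∈ T) → WL T (l.length * W) (f l.prod) := by
    intro l
    induction l with
    | nil => intro _; simpa using WL.one T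
    | cons t l ih =>
      intro hl
      have h4 := ih (fun s hs => hl s (List.mem_cons_of_mem _ hs))
      have h5 : WL T W (f t) := by
        rcases hl t List.mem_cons_self with h | h
        · exact (wl_spec (hf t h)).mono (hW t h)
        · have h6 := ((wl_spec (hf _ h)).mono (hW _ h)).inv
          rwa [map_inv, inv_inv] at h6
      rw [List.prod_cons, map_mul, List.length_cons, add_mul, one_mul, add_comm]
      exact h5.mul h4
  have h4 := key l h1
  rw [h2] at h4
  exact (wl_le h4).trans (Nat.mul_le_mul_right _ h3)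

/-- conjugation by `g`: `x ↦ g⁻¹ x g` -/
def cj (g : G) : G →* G where
  toFun x := g⁻¹ * x * g
  map_one' := by group
  map_mul' x y := by group

lemma cj_apply (g x : G) : cj g x = g⁻¹ * x * g := rfl

lemma cj_cj (g k x : G) : cj g (cj k x) = cj (k * g) x := by
  simp only [cj_apply]; group

lemma cj_one (x : G) : cj (1 : G) x = x := by simp [cj_apply]

/-- maximal length of the conjugates of the letters by `t ^ n`, at least one -/
noncomputable def Wf (T : Finset G) (t : G) (n : ℕ) : ℕ :=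
  max 1 (T.sup fun y => wl (T : Set G) (cj (t ^ n) y))

section
variable {T : Finset G} {t : G}
  (ht : ∀ x ∈ Subgroup.closure (T : Set G), cj t x ∈ Subgroup.closure (T : Set G))
include ht

lemma cj_pow_mem (n : ℕ) {x : G} (hx : x ∈ Subgroup.closure (T : Set G)) :
    cj (t ^ n) x ∈ Subgroup.closure (T : Set G) := by
  induction n generalizing x with
  | zero => rwa [pow_zero, cj_one]
  | succ n ih => rw [pow_succ, ← cj_cj]; exact ht _ (ih hx)

lemma wl_cj_le (n : ℕ) {x : G} (hx : x ∈ Subgroup.closure (T : Set G)) :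
    wl (T : Set G) (cj (t ^ n) x) ≤ wl (T : Set G) x * Wf T t n := by
  apply wl_map_le _ _ _ hx
  · intro y hy
    exact cj_pow_mem ht n (Subgroup.subset_closure hy)
  · intro y hy
    exact le_max_of_le_right
      (Finset.le_sup (f := fun y => wl (T : Set G) (cj (t ^ n) y)) (Finset.mem_coe.mp hy))

lemma Wf_add_le (m n : ℕ) : Wf T t (m + n) ≤ Wf T t m * Wf T t n := by
  have h1 : 1 ≤ Wf T t m := le_max_left _ _
  have h2 : 1 ≤ Wf T t n := le_max_left _ _
  apply max_le
  · exact Nat.one_le_iff_ne_zero.mpr (by positivity)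
  · apply Finset.sup_le
    intro y hy
    have hy' : y ∈ Subgroup.closure (T : Set G) := Subgroup.subset_closure hy
    rw [pow_add, ← cj_cj]
    refine (wl_cj_le ht n (cj_pow_mem ht m hy')).trans ?_
    apply Nat.mul_le_mul_right
    exact le_max_of_le_right
      (Finset.le_sup (f := fun y => wl (T : Set G) (cj (t ^ m) y)) hy)

end

lemma one_le_Wf (T : Finset G) (t : G) (n : ℕ) : 1 ≤ Wf T t n := le_max_left _ _

lemma Wf_argmax {T : Finset G} {t : G} {n : ℕ} (h : 1 < Wf T t n) :
    ∃ p ∈ T, wl (T : Set G) (cj (t ^ n) p) = Wf T t n := by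
  have h1 : Wf T t n = T.sup fun y => wl (T : Set G) (cj (t ^ n) y) := by
    unfold Wf at h ⊢
    rcases le_total (T.sup fun y => wl (T : Set G) (cj (t ^ n) y)) 1 with h2 | h2
    · rw [max_eq_left h2] at h; exact absurd h (lt_irrefl _)
    · exact max_eq_right h2
  have hne : T.Nonempty := by
    by_contra hcon
    rw [Finset.not_nonempty_iff_eq_empty] at hcon
    rw [h1, hcon] at h
    simp at h
  obtain ⟨p, hp, hp'⟩ := Finset.exists_mem_eq_sup T hne
    (fun y => wl (T : Set G) (cj (t ^ n) y))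
  exact ⟨p, hp, by rw [h1, hp']⟩

end Pool.Agent.LHF81
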