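import Pool.Agent.LHF.Cost
import Pool.Agent.LHF81.Len

set_option autoImplicit false
set_option linter.unusedVariables false
set_option linter.unusedSectionVars false

/-!
Decomposition of a path of `G` along a virtual epimorphism to the integers.
-/

namespace Pool.Agent.LHF81

open Pool.Agent.LHF

variable {G : Type*} [Group G] {ι : Type*} [Fintype ι]

/-- integer value of the character -/
def iv {H : Subgroup G} (χ : H →* Multiplicative ℤ) (z : H) : ℤ := Multiplicative.toAdd (χ z)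

section
variable {H : Subgroup G} (χ : H →* Multiplicative ℤ)

lemma iv_mul (a b : H) : iv χ (a * b) = iv χ a + iv χ b := by
  simp [iv, map_mul, toAdd_mul]

lemma iv_one : iv χ 1 = 0 := by simp [iv]

lemma iv_inv (a : H) : iv χ a⁻¹ = - iv χ a := by
  simp [iv, map_inv, toAdd_inv]

lemma iv_zpow (a : H) (m : ℤ) : iv χ (a ^ m) = m * iv χ a := by
  simp [iv, map_zpow, toAdd_zpow]

lemma mem_ker_iff (a : H) : a ∈ χ.ker ↔ iv χ a = 0 := by
  rw [MonoidHom.mem_ker]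
  constructor
  · intro h; simp [iv, h]
  · intro h
    apply Multiplicative.toAdd.injective
    exact h

end

/-- representation of `x` as `η t^m r` -/
def Rep {H : Subgroup G} (χ : H →* Multiplicative ℤ) (t : H) (R : Finset G) (x : G) (η : H)
    (m : ℤ) (r : G) : Prop :=
  η ∈ χ.ker ∧ r ∈ R ∧ x = (η : G) * ((t ^ m : H) : G) * r

section
variable {H : Subgroup G} {χ : H →* Multiplicative ℤ} {t : H} (ht : iv χ t = 1) {R : Finset G}
include ht

lemma exists_rep (hR : ∀ x : G, ∃ g ∈ H, ∃ r ∈ R, x = g * r) (x : G) :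
    ∃ η m r, Rep χ t R x η m r := by
  obtain ⟨g, hg, r, hr, rfl⟩ := hR x
  refine ⟨⟨g, hg⟩ * t ^ (-(iv χ ⟨g, hg⟩)), iv χ ⟨g, hg⟩, r, ?_, hr, ?_⟩
  · rw [mem_ker_iff, iv_mul, iv_zpow, ht]; ring
  · rw [← Subgroup.coe_mul, mul_assoc, ← zpow_add]; simp

/-- the step of a path -/
lemma rep_step {x s : G} {η η' : H} {m m' : ℤ} {r r' : G} (h1 : Rep χ t R x η m r)
    (h2 : Rep χ t R (x * s) η' m' r') :
    ∃ z : H, (z : G) = r * s * r'⁻¹ ∧
      η⁻¹ * η' = t ^ m * (z * t ^ (-(iv χ z))) * t ^ (-m) := by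
  obtain ⟨hη, -, hx⟩ := h1
  obtain ⟨hη', -, hx'⟩ := h2
  refine ⟨t ^ (-m) * η⁻¹ * η' * t ^ m', ?_, ?_⟩
  · have h3 : r * s * r'⁻¹ = ((t ^ m : H) : G)⁻¹ * (η : G)⁻¹ * (x * s) * r'⁻¹ := by
      rw [hx]; group
    rw [h3, hx']
    simp only [Subgroup.coe_mul, Subgroup.coe_inv, zpow_neg]
    group
  · have h4 : iv χ (t ^ (-m) * η⁻¹ * η' * t ^ m') = m' - m := by
      rw [mem_ker_iff] at hη hη'
      rw [iv_mul, iv_mul, iv_mul, iv_zpow, iv_zpow, iv_inv, ht, hη, hη']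
      ring
    rw [h4]
    group

variable {σ : ι → G} {Λ : H → ℝ} {χt : G → ℝ} {κ E B L M0 : ℝ}

/-- **Path lemma.** -/
theorem path_bound (hR : ∀ x : G, ∃ g ∈ H, ∃ r ∈ R, x = g * r)
    (hΛ : ∀ x ∈ χ.ker, ∀ y ∈ χ.ker, Λ (x * y) ≤ Λ x + Λ y)
    (hχt : ∀ (g : H) (x : G), χt ((g : G) * x) = iv χ g + χt x)
    (hL : ∀ x j, |χt (x * σ j) - χt x| ≤ L)
    (hB : ∀ r ∈ R, |χt r| ≤ B) (hκ : 0 ≤ κ) (hE : 0 ≤ E)
    (hY : ∀ r ∈ R, ∀ r' ∈ R, ∀ s : G, (s = 1 ∨ ∃ j, s = σ j) → ∀ z : H, (z : G) = r * s * r'⁻¹ →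
      ∀ m : ℤ, |(m : ℝ)| ≤ M0 →
        Λ (t ^ m * (z * t ^ (-(iv χ z))) * t ^ (-m)) ≤ E * Real.exp (-(κ * m)))
    (l : List ι) (x : G) (hM : |χt x| + L * l.length + B ≤ M0)
    (η : H) (m : ℤ) (r : G) (η' : H) (m' : ℤ) (r' : G)
    (h1 : Rep χ t R x η m r) (h2 : Rep χ t R (x * wprod σ l) η' m' r') :
    Λ (η⁻¹ * η') ≤ E * Real.exp (κ * B) * (pcost σ (fun x => κ * χt x) x l +
      Real.exp (-(κ * χt (x * wprod σ l)))) := by
  have step : ∀ (x s : G), (s = 1 ∨ ∃ j, s = σ j) → |χt x| + B ≤ M0 →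
      ∀ (η : H) (m : ℤ) (r : G) (η' : H) (m' : ℤ) (r' : G), Rep χ t R x η m r →
      Rep χ t R (x * s) η' m' r' →
      Λ (η⁻¹ * η') ≤ E * Real.exp (κ * B) * Real.exp (-(κ * χt x)) := by
    intro x s hs hM η m r η' m' r' h1 h2
    obtain ⟨z, hz, he⟩ := rep_step ht h1 h2
    obtain ⟨hη, hr, hx⟩ := h1
    have hv : χt x = m + χt r := by
      rw [hx, ← Subgroup.coe_mul, hχt, iv_mul, iv_zpow, ht]
      rw [mem_ker_iff] at hη
      rw [hη]; push_cast; ring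
    have hBr := abs_le.mp (hB r hr)
    have hm : |(m : ℝ)| ≤ M0 := by
      have h3 := abs_le.mp (le_refl |χt x|)
      rw [abs_le]
      constructor <;> linarith [h3.1, h3.2, hBr.1, hBr.2]
    rw [he]
    refine (hY r hr r' h2.2.1 s hs z hz m hm).trans ?_
    rw [mul_assoc E, ← Real.exp_add]
    apply mul_le_mul_of_nonneg_left _ hE
    apply Real.exp_le_exp.mpr
    have h4 : κ * χt x ≤ κ * (m + B) := by
      apply mul_le_mul_of_nonneg_left _ hκ
      rw [hv]; linarith [hBr.2]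
    linarith
  induction l generalizing x η m r with
  | nil =>
    have h3 := step x 1 (Or.inl rfl) (by simpa using hM) η m r η' m' r' h1
      (by simpa using h2)
    simpa using h3
  | cons j l ih =>
    rw [List.length_cons] at hM
    push_cast at hM
    have hL0 : 0 ≤ L := (abs_nonneg _).trans (hL x j)
    have hl0 : (0 : ℝ) ≤ l.length := Nat.cast_nonneg _
    have hLl : 0 ≤ L * l.length := mul_nonneg hL0 hl0
    obtain ⟨η1, m1, r1, h3⟩ := exists_rep ht hR (x * σ j)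
    have h4 := step x (σ j) (Or.inr ⟨j, rfl⟩) (by linarith) η m r η1 m1 r1 h1 h3
    have h5 : |χt (x * σ j)| ≤ |χt x| + L := by
      have h6 := hL x j
      have h7 : χt (x * σ j) = χt x + (χt (x * σ j) - χt x) := by ring
      rw [h7]
      exact (abs_add_le _ _).trans (by linarith)
    have h6 := ih (x * σ j) (by linarith) η1 m1 r1 h3 (by rwa [mul_assoc, ← wprod_cons])
    have h7 : η⁻¹ * η' = (η⁻¹ * η1) * (η1⁻¹ * η') := by group
    have hm1 : η⁻¹ * η1 ∈ χ.ker := χ.ker.mul_mem (χ.ker.inv_mem h1.1) h3.1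
    have hm2 : η1⁻¹ * η' ∈ χ.ker := χ.ker.mul_mem (χ.ker.inv_mem h3.1) h2.1
    rw [h7]
    refine (hΛ _ hm1 _ hm2).trans ?_
    rw [pcost_cons, wprod_cons, ← mul_assoc x, add_assoc, mul_add]
    exact add_le_add h4 h6

end

end Pool.Agent.LHF81
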