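import Pool.Agent.LHF.Extend
import Pool.Agent.LHF81.Fek
import Pool.Agent.LHF81.Path

set_option autoImplicit false
set_option linter.unusedVariables false
set_option linter.unusedSectionVars false

/-!
Exponential growth of the conjugates contradicts finite dimensionality.
-/

namespace Pool.Agent.LHF81

open Pool.Agent.LHF

variable {G : Type} [Group G] {ι : Type} [Fintype ι] [Nonempty ι]

/-- lengths of the corrections along a step -/
lemma exists_corr (H : Subgroup G) (χ : H →* Multiplicative ℤ) (t : H) (σ : ι → G) (R : Finset G)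
    (f : H → ℕ) :
    ∃ Cy : ℕ, ∀ r ∈ R, ∀ r' ∈ R, ∀ s : G, (s = 1 ∨ ∃ j, s = σ j) → ∀ z : H,
      (z : G) = r * s * r'⁻¹ → f (z * t ^ (-(iv χ z))) ≤ Cy := by
  classical
  set F : G → ℕ := fun g => if hg : g ∈ H then f ((⟨g, hg⟩ : H) * t ^ (-(iv χ ⟨g, hg⟩))) else 0
    with hF
  set P : Finset G := insert 1 (Finset.univ.image σ) with hP
  refine ⟨∑ r ∈ R, ∑ r' ∈ R, ∑ s ∈ P, F (r * s * r'⁻¹), ?_⟩
  intro r hr r' hr' s hs z hz
  have hsP : s ∈ P := by
    rw [hP, Finset.mem_insert, Finset.mem_image]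
    rcases hs with h | ⟨j, h⟩
    · exact Or.inl h
    · exact Or.inr ⟨j, Finset.mem_univ _, h.symm⟩
  have h1 : F (r * s * r'⁻¹) = f (z * t ^ (-(iv χ z))) := by
    have h2 : r * s * r'⁻¹ ∈ H := by rw [← hz]; exact z.2
    have h3 : (⟨r * s * r'⁻¹, h2⟩ : H) = z := Subtype.ext hz.symm
    simp only [hF]
    rw [dif_pos h2, h3]
  rw [← h1]
  refine le_trans ?_ (Finset.single_le_sum (f := fun r => ∑ r' ∈ R, ∑ s ∈ P, F (r * s * r'⁻¹))
    (fun _ _ => Nat.zero_le _) hr)
  refine le_trans ?_ (Finset.single_le_sum (f := fun r' => ∑ s ∈ P, F (r * s * r'⁻¹))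
    (fun _ _ => Nat.zero_le _) hr')
  exact Finset.single_le_sum (f := fun s => F (r * s * r'⁻¹)) (fun _ _ => Nat.zero_le _) hsP

/-- a harmonic extension of the character, with all the data of a path -/
lemma exists_chi {σ : ι → G} {τ : ι ≃ ι} (hτ : ∀ j, σ (τ j) = (σ j)⁻¹)
    (hgen : ∀ g : G, ∃ l : List ι, wprod σ l = g) {H : Subgroup G} (hH : H.FiniteIndex)
    (χ : H →* Multiplicative ℤ) :
    ∃ χt : G → ℝ, (∀ x, avg σ χt x = χt x) ∧
      (∀ (g : H) (x : G), χt ((g : G) * x) = iv χ g + χt x) ∧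
      (∀ g : H, χt (g : G) = iv χ g) ∧
      ∃ L, 0 ≤ L ∧ ∀ x j, |χt (x * σ j) - χt x| ≤ L := by
  classical
  set f : G → ℝ := fun g => if hg : g ∈ H then (iv χ ⟨g, hg⟩ : ℝ) else 0 with hf
  have hfH : ∀ g : H, f (g : G) = iv χ g := by
    intro g
    simp only [hf]
    rw [dif_pos g.2]
  obtain ⟨h, h1, h2, h3⟩ := exists_harmonic_extension hτ hgen hH f (by
    intro a ha b hb
    have e1 := hfH ⟨a, ha⟩
    have e2 := hfH ⟨b, hb⟩
    have e3 := hfH (⟨a, ha⟩ * ⟨b, hb⟩)
    rw [iv_mul] at e3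
    simp only [Subgroup.coe_mul] at e1 e2 e3
    rw [e1, e2, e3]
    push_cast; ring)
  refine ⟨h, h1, fun g x => ?_, fun g => ?_, ?_⟩
  · rw [h3 g g.2, h2 g g.2, hfH]
  · rw [h2 g g.2, hfH]
  · exact exists_lip hH h3

/-- the representatives contain `1` -/
lemma exists_reps' (H : Subgroup G) (hH : H.FiniteIndex) :
    ∃ R : Finset G, (1 : G) ∈ R ∧ ∀ x : G, ∃ g ∈ H, ∃ r ∈ R, x = g * r := by
  classical
  obtain ⟨R, hR⟩ := exists_reps H hH
  refine ⟨insert 1 R, Finset.mem_insert_self _ _, fun x => ?_⟩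
  obtain ⟨g, hg, r, hr, h⟩ := hR x
  exact ⟨g, hg, r, Finset.mem_insert_of_mem hr, h⟩

/-- **Main estimate.** -/
theorem subexp {σ : ι → G} (hFin : FinHF σ) {τ : ι ≃ ι} (hτ : ∀ j, σ (τ j) = (σ j)⁻¹)
    {i0 : ι} (hi0 : σ i0 = 1) (hgen : ∀ g : G, ∃ l : List ι, wprod σ l = g)
    {H : Subgroup G} (hH : H.FiniteIndex) (χ : H →* Multiplicative ℤ) {t : H}
    (ht : iv χ t = 1) {T : Finset H} (hT : Subgroup.closure (T : Set H) = χ.ker) :
    ∀ c : ℝ, 0 < c → ∃ C : ℝ, 0 ≤ C ∧ ∀ n : ℕ, (Wf T t n : ℝ) ≤ C * Real.exp (c * n) := by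
  classical
  have hcj : ∀ x ∈ Subgroup.closure (T : Set H), cj t x ∈ Subgroup.closure (T : Set H) := by
    rw [hT]
    intro x hx
    rw [mem_ker_iff] at hx ⊢
    rw [cj_apply, iv_mul, iv_mul, iv_inv, hx, ht]; ring
  rcases fekete (W := Wf T t) (one_le_Wf T t) (Wf_add_le hcj) with h | ⟨κ, hκ, hlow, A, hA0, hA⟩
  · exact h
  exfalso
  -- pigeonhole for the letter `p`
  obtain ⟨p, hpT, hp⟩ : ∃ p ∈ T, ∀ M : ℕ, ∃ n, M ≤ n ∧ 1 ≤ n ∧
      wl (T : Set H) (cj (t ^ n) p) = Wf T t n ∧
      ∀ n', n ≤ n' + M → n' ≤ n + M →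
        (Wf T t n' : ℝ) ≤ Real.exp A * (Wf T t n * Real.exp (κ * ((n' : ℝ) - n))) := by
    by_contra hcon
    push Not at hcon
    choose! Mf hMf using hcon
    obtain ⟨n, hn, hn'⟩ := hA (T.sup Mf + 1)
    have h1 : 1 < Wf T t n := by
      have h2 := hlow n
      have h3 : (1 : ℝ) < Real.exp (κ * n) := by
        apply Real.one_lt_exp_iff.mpr
        have : (0 : ℝ) < n := by exact_mod_cast (by omega : 0 < n)
        positivity
      exact_mod_cast lt_of_lt_of_le h3 h2
    obtain ⟨p, hp, hp'⟩ := Wf_argmax h1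
    have hle : Mf p ≤ T.sup Mf := Finset.le_sup (f := Mf) hp
    obtain ⟨n', h2, h3, h4⟩ := hMf p hp n (by omega) (by omega) hp'
    have h5 := hn' n' (by omega) (by omega)
    linarith
  obtain ⟨χt, hharm, hχt, hχH, L, hL0, hL⟩ := exists_chi hτ hgen hH χ
  obtain ⟨R, hR1, hR⟩ := exists_reps' H hH
  set B : ℝ := ∑ r ∈ R, |χt r| with hB
  have hBr : ∀ r ∈ R, |χt r| ≤ B := fun r hr =>
    Finset.single_le_sum (f := fun r => |χt r|) (fun _ _ => abs_nonneg _) hr
  have hB0 : 0 ≤ B := Finset.sum_nonneg fun _ _ => abs_nonneg _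
  obtain ⟨Cy, hCy⟩ := exists_corr H χ t σ R (wl (T : Set H))
  have hpker : p ∈ χ.ker := by rw [← hT]; exact Subgroup.subset_closure (Finset.mem_coe.mpr hpT)
  set c0 : ℝ := 1 / (2 * ((Cy + 1) * Real.exp A * Real.exp (κ * B))) with hc0
  have hc0pos : 0 < c0 := by positivity
  refine theoremU (σ := σ) (τ := τ) (i0 := i0) (H := H) (h := fun x => κ * χt x) (t := (t : G))
    (p := (p : G)) (c := c0) hτ hi0 hgen hH ?_ ?_ t.2 p.2 ?_ hc0pos ?_ hFin
  · intro x
    rw [avg_smul, hharm]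
  · intro g hg x
    have h1 : χt (g * x) = iv χ ⟨g, hg⟩ + χt x := hχt ⟨g, hg⟩ x
    have h2 : χt g = iv χ ⟨g, hg⟩ := hχH ⟨g, hg⟩
    rw [h1, h2]; ring
  · rw [hχH, ht]; push_cast; linarith
  · intro k l hkl
    have hκ0 : 0 ≤ κ := hκ.le
    obtain ⟨M, hM⟩ := exists_nat_ge ((k : ℝ) + L * l.length + B)
    obtain ⟨n, hn1, hn2, hn3, hn4⟩ := hp M
    have hWpos : (0 : ℝ) < Wf T t n := by exact_mod_cast one_le_Wf T t n
    -- the length function
    set Λ : H → ℝ := fun x => (wl (T : Set H) (cj (t ^ n) x) : ℝ) with hΛ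
    have hcjn : ∀ x ∈ χ.ker, cj (t ^ n) x ∈ Subgroup.closure (T : Set H) := by
      intro x hx
      rw [← hT] at hx
      exact cj_pow_mem hcj n hx
    have hl : l ≠ [] := by
      rintro rfl
      rw [wprod_nil, mul_one] at hkl
      have h1 : (p : G) = 1 := by
        have := congrArg (fun z => z * ((t : G) ^ k)⁻¹) hkl
        simp only [mul_inv_cancel, mul_inv_cancel_right] at this
        exact this.symm
      have h2 : p = 1 := Subtype.ext h1
      rw [h2, map_one, wl_one] at hn3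
      have := one_le_Wf T t n
      omega
    have key := path_bound (χ := χ) (t := t) ht (σ := σ) (Λ := Λ) (χt := χt) (κ := κ)
      (E := (Cy + 1) * Real.exp A * Wf T t n) (B := B) (L := L) (M0 := M) (R := R) hR
      (by
        intro x hx y hy
        simp only [hΛ]
        rw [map_mul]
        exact_mod_cast wl_mul (hcjn x hx) (hcjn y hy))
      hχt hL hBr hκ0 (by positivity)
      (by
        intro r hr r' hr' s hs z hz m hm
        have h1 := hCy r hr r' hr' s hs z hz
        have hyker : z * t ^ (-(iv χ z)) ∈ Subgroup.closure (T : Set H) := by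
          rw [hT, mem_ker_iff, iv_mul, iv_zpow, ht]; ring
        have hmn : |m| ≤ (M : ℤ) := by exact_mod_cast hm
        have hmM := abs_le.mp hmn
        obtain ⟨n', hn'⟩ : ∃ n' : ℕ, (n' : ℤ) = n - m :=
          ⟨((n : ℤ) - m).toNat, Int.toNat_of_nonneg (by omega)⟩
        have h2 : cj (t ^ n) (t ^ m * (z * t ^ (-(iv χ z))) * t ^ (-m)) =
            cj (t ^ n') (z * t ^ (-(iv χ z))) := by
          have h3 : (t ^ n' : H) = t ^ (-m) * t ^ n := by
            rw [← zpow_natCast t n', hn', ← zpow_natCast t n, ← zpow_add]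
            congr 1; ring
          rw [h3, cj_apply, cj_apply]
          group
        simp only [hΛ]
        rw [h2]
        have h4 := wl_cj_le hcj n' hyker
        have h5 : (wl (T : Set H) (cj (t ^ n') (z * t ^ (-(iv χ z)))) : ℝ) ≤ Cy * Wf T t n' := by
          exact_mod_cast h4.trans (Nat.mul_le_mul_right _ h1)
        have h6 := hn4 n' (by omega) (by omega)
        have h7 : ((n' : ℝ) - n) = -m := by
          have : (n' : ℝ) = n - m := by exact_mod_cast hn'
          rw [this]; ring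
        rw [h7] at h6
        calc (wl (T : Set H) (cj (t ^ n') (z * t ^ (-(iv χ z)))) : ℝ) ≤ Cy * Wf T t n' := h5
          _ ≤ (Cy + 1) * (Real.exp A * (Wf T t n * Real.exp (κ * (-m)))) := by
              have h8 : (0 : ℝ) ≤ Wf T t n' := Nat.cast_nonneg _
              have h9 : (0 : ℝ) ≤ Cy := Nat.cast_nonneg _
              nlinarith
          _ = (Cy + 1) * Real.exp A * Wf T t n * Real.exp (-(κ * m)) := by
              rw [show κ * (-(m : ℝ)) = -(κ * m) by ring]; ring)
      l ((t : G) ^ k) (by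
        have h1 := hχH (t ^ k)
        rw [Subgroup.coe_pow] at h1
        have h2 : iv χ (t ^ k) = k := by
          have := iv_zpow χ t (k : ℤ)
          rw [zpow_natCast] at this
          rw [this, ht, mul_one]
        rw [h1, h2]
        have h3 : |(((k : ℕ) : ℤ) : ℝ)| = k := by
          rw [Int.cast_natCast]; exact abs_of_nonneg (Nat.cast_nonneg _)
        rw [h3]; exact hM)
      1 k 1 p k 1
      ⟨χ.ker.one_mem, hR1, by simp⟩ ⟨hpker, hR1, by rw [hkl]; simp⟩
    rw [inv_one, one_mul] at key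
    have hΛp : Λ p = Wf T t n := by
      simp only [hΛ]; rw [hn3]
    rw [hΛp] at key
    -- the endpoint has the same height
    have hend : Real.exp (-(κ * χt ((t : G) ^ k * wprod σ l))) ≤
        pcost σ (fun x => κ * χt x) ((t : G) ^ k) l := by
      have h1 : χt ((t : G) ^ k * wprod σ l) = χt ((t : G) ^ k) := by
        rw [hkl, hχt]
        rw [mem_ker_iff] at hpker
        rw [hpker]; simp
      rw [h1]
      cases l with
      | nil => exact absurd rfl hl
      | cons j l =>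
        rw [pcost_cons]
        have := pcost_nonneg σ (fun x => κ * χt x) ((t : G) ^ k * σ j) l
        linarith
    have h2 : (Wf T t n : ℝ) ≤ (Cy + 1) * Real.exp A * Wf T t n * Real.exp (κ * B) *
        (2 * pcost σ (fun x => κ * χt x) ((t : G) ^ k) l) := by
      refine key.trans ?_
      apply mul_le_mul_of_nonneg_left _ (by positivity)
      linarith
    have h3 : 1 ≤ 2 * ((Cy + 1) * Real.exp A * Real.exp (κ * B)) *
        pcost σ (fun x => κ * χt x) ((t : G) ^ k) l := by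
      have h4 : (Wf T t n : ℝ) * 1 ≤ Wf T t n * (2 * ((Cy + 1) * Real.exp A * Real.exp (κ * B)) *
          pcost σ (fun x => κ * χt x) ((t : G) ^ k) l) := by
        rw [mul_one]
        refine h2.trans (le_of_eq ?_)
        ring
      exact le_of_mul_le_mul_left h4 hWpos
    rw [hc0, div_le_iff₀ (by positivity)]
    linarith

end Pool.Agent.LHF81
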