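import Pool.Agent.LHF.Final
import Pool.Agent.LHF81.Sub

set_option autoImplicit false
set_option linter.unusedVariables false
set_option linter.unusedSectionVars false
set_option linter.style.haveILetI false

/-!
Subexponential distortion of the kernels of virtual epimorphisms to the integers.
-/

namespace Pool.Agent.LHF81

open Pool.Agent.LHF
open scoped commutatorElement

variable {G : Type} [Group G]

lemma pcost_zero {ι : Type} [Fintype ι] (σ : ι → G) (f : G → ℝ) (x : G) (l : List ι) :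
    pcost σ (fun x => 0 * f x) x l = l.length := by
  induction l generalizing x with
  | nil => simp
  | cons j l ih => rw [pcost_cons, ih]; simp; ring

lemma Wf_inv_ker {H : Subgroup G} {χ : H →* Multiplicative ℤ} {t : H} (ht : iv χ t = 1) :
    iv χ⁻¹ t⁻¹ = 1 ∧ (χ⁻¹).ker = χ.ker := by
  constructor
  · rw [iv_inv]
    simp only [iv, MonoidHom.inv_apply, toAdd_inv]
    have : Multiplicative.toAdd (χ t) = 1 := ht
    rw [this]; ring
  · ext x
    simp [MonoidHom.mem_ker]

/-- the kernel of a virtual character is finitely generated -/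
theorem ker_fg (hG : FinG G) {H : Subgroup G} (hH : H.FiniteIndex) (χ : H →* Multiplicative ℤ) :
    χ.ker.FG := by
  classical
  haveI := hH
  haveI : Group.FG G := hG.fg
  have hHfg : H.FG := (Group.fg_iff_subgroup_fg H).mp inferInstance
  have h1 : (H.lowerCentralSeries 1).FG := hG.lcs_fg H hH 1
  have h2 : H.lowerCentralSeries 1 = ⁅H, H⁆ := by
    rw [Subgroup.lowerCentralSeries_succ, Subgroup.lowerCentralSeries_zero]
  rw [h2] at h1
  have hle : ⁅H, H⁆ ≤ H := by
    rw [Subgroup.commutator_le]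
    intro a ha b hb
    rw [commutatorElement_def]
    exact H.mul_mem (H.mul_mem (H.mul_mem ha hb) (H.inv_mem ha)) (H.inv_mem hb)
  set D : Subgroup G := χ.ker.map H.subtype with hD
  have hDH : D ≤ H := by
    rintro _ ⟨x, -, rfl⟩
    exact x.2
  obtain ⟨Y, hY, hYD, hDY⟩ := noeth_step hHfg (le_refl ⁅H, H⁆) hle hDH
  have hcomm : ⁅H, H⁆ ≤ D := by
    rw [Subgroup.commutator_le]
    intro a ha b hb
    refine ⟨⁅(⟨a, ha⟩ : H), ⟨b, hb⟩⁆, ?_, rfl⟩
    change χ _ = 1
    rw [map_commutatorElement, commutatorElement_eq_one_iff_mul_comm]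
    exact mul_comm _ _
  have hDeq : D = Subgroup.closure Y ⊔ ⁅H, H⁆ := by
    apply le_antisymm hDY
    apply sup_le _ hcomm
    rw [Subgroup.closure_le]
    exact hYD
  have hDfg : D.FG := by
    rw [hDeq]
    exact Subgroup.FG.sup ((Subgroup.fg_iff _).mpr ⟨Y, rfl, hY⟩) h1
  -- back to `H`
  obtain ⟨S, hS, hSf⟩ := (Subgroup.fg_iff _).mp hDfg
  rw [Subgroup.fg_iff]
  refine ⟨H.subtype ⁻¹' S, ?_, hSf.preimage (Subtype.val_injective.injOn)⟩
  apply Subgroup.map_injective (f := H.subtype) H.subtype_injective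
  rw [MonoidHom.map_closure, Set.image_preimage_eq_of_subset, hS]
  intro s hs
  have : s ∈ D := by rw [← hS]; exact Subgroup.subset_closure hs
  exact ⟨⟨s, hDH this⟩, rfl⟩

/-- conjugation by integer powers, both directions at once -/
lemma wl_conj_zpow {H : Subgroup G} {χ : H →* Multiplicative ℤ} {t : H} (ht : iv χ t = 1)
    {T : Finset H} (hT : Subgroup.closure (T : Set H) = χ.ker) {c C1 C2 : ℝ} (hc : 0 ≤ c)
    (hC1 : 0 ≤ C1) (hC2 : 0 ≤ C2)
    (h1 : ∀ n : ℕ, (Wf T t n : ℝ) ≤ C1 * Real.exp (c * n))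
    (h2 : ∀ n : ℕ, (Wf T t⁻¹ n : ℝ) ≤ C2 * Real.exp (c * n)) {y : H} (hy : y ∈ χ.ker) {m : ℤ}
    {M : ℝ} (hm : |(m : ℝ)| ≤ M) :
    (wl (T : Set H) (t ^ m * y * t ^ (-m)) : ℝ) ≤
      wl (T : Set H) y * ((C1 + C2) * Real.exp (c * M)) := by
  have hy' : y ∈ Subgroup.closure (T : Set H) := by rw [hT]; exact hy
  have hmem : ∀ s : H, iv χ s = 1 ∨ iv χ s = -1 → ∀ x ∈ Subgroup.closure (T : Set H),
      cj s x ∈ Subgroup.closure (T : Set H) := by
    intro s hs x hx
    rw [hT, mem_ker_iff] at hx ⊢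
    rw [cj_apply, iv_mul, iv_mul, iv_inv, hx]; ring
  have hw0 : (0 : ℝ) ≤ wl (T : Set H) y := Nat.cast_nonneg _
  have hexp := Real.exp_pos (c * M)
  rcases le_total 0 m with h | h
  · obtain ⟨n, rfl⟩ := Int.eq_ofNat_of_zero_le h
    have e1 : t ^ (n : ℤ) * y * t ^ (-(n : ℤ)) = cj (t⁻¹ ^ n) y := by
      rw [cj_apply, zpow_neg, zpow_natCast, inv_pow, inv_inv]
    rw [e1]
    have h3 := wl_cj_le (T := T) (t := t⁻¹) (hmem t⁻¹ (Or.inr (by rw [iv_inv, ht]))) n hy'
    have h4 : (wl (T : Set H) (cj (t⁻¹ ^ n) y) : ℝ) ≤ wl (T : Set H) y * Wf T t⁻¹ n := by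
      exact_mod_cast h3
    refine h4.trans ?_
    apply mul_le_mul_of_nonneg_left _ hw0
    refine (h2 n).trans ?_
    have hn : (n : ℝ) ≤ M := by
      have : |((n : ℤ) : ℝ)| = n := by
        rw [Int.cast_natCast]; exact abs_of_nonneg (Nat.cast_nonneg _)
      rwa [this] at hm
    have h5 : Real.exp (c * n) ≤ Real.exp (c * M) := Real.exp_le_exp.mpr (by gcongr)
    have h6 := Real.exp_pos (c * (n : ℝ))
    nlinarith
  · obtain ⟨n, hn⟩ := Int.eq_ofNat_of_zero_le (neg_nonneg.mpr h)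
    have hm' : m = -(n : ℤ) := by omega
    subst hm'
    have e1 : t ^ (-(n : ℤ)) * y * t ^ (-(-(n : ℤ))) = cj (t ^ n) y := by
      rw [cj_apply, neg_neg, zpow_neg, zpow_natCast]
    rw [e1]
    have h3 := wl_cj_le (T := T) (t := t) (hmem t (Or.inl ht)) n hy'
    have h4 : (wl (T : Set H) (cj (t ^ n) y) : ℝ) ≤ wl (T : Set H) y * Wf T t n := by
      exact_mod_cast h3
    refine h4.trans ?_
    apply mul_le_mul_of_nonneg_left _ hw0
    refine (h1 n).trans ?_
    have hn : (n : ℝ) ≤ M := by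
      have : |((-(n : ℤ) : ℤ) : ℝ)| = n := by
        push_cast
        rw [abs_neg]; exact abs_of_nonneg (Nat.cast_nonneg _)
      rwa [this] at hm
    have h5 : Real.exp (c * n) ≤ Real.exp (c * M) := Real.exp_le_exp.mpr (by gcongr)
    have h6 := Real.exp_pos (c * (n : ℝ))
    nlinarith

/-- subexponential distortion, words in `σ` -/
theorem dist_sigma {ι : Type} [Fintype ι] [Nonempty ι] {σ : ι → G} (hFin : FinHF σ) {τ : ι ≃ ι}
    (hτ : ∀ j, σ (τ j) = (σ j)⁻¹)
    {i0 : ι} (hi0 : σ i0 = 1) (hgen : ∀ g : G, ∃ l : List ι, wprod σ l = g)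
    {H : Subgroup G} (hH : H.FiniteIndex) (χ : H →* Multiplicative ℤ) {t : H}
    (ht : iv χ t = 1) {T : Finset H} (hT : Subgroup.closure (T : Set H) = χ.ker) {c : ℝ}
    (hc : 0 < c) :
    ∃ C : ℝ, 0 ≤ C ∧ ∀ (l : List ι) (y : H), y ∈ χ.ker → (y : G) = wprod σ l →
      (wl (T : Set H) y : ℝ) ≤ C * Real.exp (c * l.length) := by
  classical
  obtain ⟨χt, hharm, hχt, hχH, L, hL0, hL⟩ := exists_chi hτ hgen hH χ
  obtain ⟨R, hR1, hR⟩ := exists_reps' H hH
  set B : ℝ := ∑ r ∈ R, |χt r| with hB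
  have hBr : ∀ r ∈ R, |χt r| ≤ B := fun r hr =>
    Finset.single_le_sum (f := fun r => |χt r|) (fun _ _ => abs_nonneg _) hr
  have hB0 : 0 ≤ B := Finset.sum_nonneg fun _ _ => abs_nonneg _
  obtain ⟨Cy, hCy⟩ := exists_corr H χ t σ R (wl (T : Set H))
  set c' : ℝ := c / (2 * (L + 1)) with hc'
  have hc'pos : 0 < c' := by positivity
  obtain ⟨C1, hC1, h1⟩ := subexp hFin hτ hi0 hgen hH χ ht hT c' hc'pos
  obtain ⟨ht', hker'⟩ := Wf_inv_ker (χ := χ) ht
  obtain ⟨C2, hC2, h2⟩ := subexp hFin hτ hi0 hgen hH χ⁻¹ ht' (T := T) (by rw [hT, hker']) c'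
    hc'pos
  set K : ℝ := Cy * ((C1 + C2) * Real.exp (c' * B)) with hK
  have hK0 : 0 ≤ K := by positivity
  refine ⟨K * (2 / c + 1), by positivity, fun l y hy hyl => ?_⟩
  have key := path_bound (χ := χ) (t := t) ht (σ := σ)
      (Λ := fun x => (wl (T : Set H) x : ℝ)) (χt := χt) (κ := 0)
      (E := Cy * ((C1 + C2) * Real.exp (c' * (L * l.length + B)))) (B := B) (L := L)
      (M0 := L * l.length + B) (R := R) hR
      (by
        intro x hx y hy
        rw [← hT] at hx hy
        exact_mod_cast wl_mul hx hy)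
      hχt hL hBr le_rfl (by positivity)
      (by
        intro r hr r' hr' s hs z hz m hm
        have h3 : (wl (T : Set H) (z * t ^ (-(iv χ z))) : ℝ) ≤ Cy := by
          exact_mod_cast hCy r hr r' hr' s hs z hz
        have hyker : z * t ^ (-(iv χ z)) ∈ χ.ker := by
          rw [mem_ker_iff, iv_mul, iv_zpow, ht]; ring
        have h4 := wl_conj_zpow ht hT hc'pos.le hC1 hC2 h1 h2 hyker hm
        simp only [zero_mul, neg_zero, Real.exp_zero, mul_one]
        refine h4.trans ?_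
        gcongr)
      l 1 (by
        have : χt 1 = 0 := by
          have := hχH 1
          rw [Subgroup.coe_one, iv_one] at this
          simpa using this
        rw [this]; simp)
      1 0 1 y 0 1
      ⟨χ.ker.one_mem, hR1, by simp⟩ ⟨hy, hR1, by rw [one_mul, ← hyl]; simp⟩
  rw [inv_one, one_mul, pcost_zero] at key
  simp only [zero_mul, Real.exp_zero, mul_one, neg_zero] at key
  refine key.trans ?_
  have hlen0 : (0 : ℝ) ≤ l.length := Nat.cast_nonneg _
  set n : ℝ := (l.length : ℝ) with hn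
  have h3 : Real.exp (c' * (L * n + B)) ≤ Real.exp (c' * B) * Real.exp (c / 2 * n) := by
    rw [← Real.exp_add]
    apply Real.exp_le_exp.mpr
    have h4 : c' * L ≤ c / 2 := by
      rw [hc', div_mul_eq_mul_div, div_le_div_iff₀ (by positivity) (by norm_num)]
      nlinarith
    have h5 : c' * L * n ≤ c / 2 * n := by gcongr
    linarith
  have h4 : n + 1 ≤ (2 / c + 1) * Real.exp (c / 2 * n) := by
    have h5 := Real.add_one_le_exp (c / 2 * n)
    have h6 : n = 2 / c * (c / 2 * n) := by field_simp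
    have h7 : 2 / c * (c / 2 * n) ≤ 2 / c * Real.exp (c / 2 * n) := by
      apply mul_le_mul_of_nonneg_left _ (by positivity)
      linarith
    have h8 : 1 ≤ Real.exp (c / 2 * n) := Real.one_le_exp (by positivity)
    nlinarith
  have h5 : Real.exp (c * n) = Real.exp (c / 2 * n) * Real.exp (c / 2 * n) := by
    rw [← Real.exp_add]; congr 1; ring
  rw [h5]
  have he := Real.exp_pos (c / 2 * n)
  calc (Cy : ℝ) * ((C1 + C2) * Real.exp (c' * (L * n + B))) * (n + 1)
      ≤ Cy * ((C1 + C2) * (Real.exp (c' * B) * Real.exp (c / 2 * n))) *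
        ((2 / c + 1) * Real.exp (c / 2 * n)) := by gcongr
    _ = K * (2 / c + 1) * (Real.exp (c / 2 * n) * Real.exp (c / 2 * n)) := by
        rw [hK]; ring

end Pool.Agent.LHF81
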