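import Pool.Agent.LHF81.Dist

set_option autoImplicit false
set_option linter.unusedVariables false
set_option linter.unusedSectionVars false
set_option linter.style.haveILetI false

/-!
Final form: kernels of virtual epimorphisms to the integers are finitely generated and
subexponentially distorted.
-/

namespace Pool.Agent.LHF81

open Pool.Agent.LHF

variable {G : Type} [Group G]

/-- words in `S` are words in `σ`, with linear control of the length -/
lemma exists_word_bound {ι : Type} [Fintype ι] {σ : ι → G}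
    (hgen : ∀ g : G, ∃ l : List ι, wprod σ l = g) (S : Finset G) :
    ∃ K : ℕ, ∀ l : List G, (∀ s ∈ l, s ∈ S) →
      ∃ l' : List ι, wprod σ l' = l.prod ∧ l'.length ≤ K * l.length := by
  classical
  choose w hw using hgen
  refine ⟨S.sup fun s => (w s).length, ?_⟩
  intro l
  induction l with
  | nil => intro _; exact ⟨[], by simp, by simp⟩
  | cons s l ih =>
    intro hl
    obtain ⟨l', h1, h2⟩ := ih fun x hx => hl x (List.mem_cons_of_mem _ hx)
    refine ⟨w s ++ l', ?_, ?_⟩
    · rw [wprod_append, hw, h1, List.prod_cons]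
    · have h3 : (w s).length ≤ S.sup fun s => (w s).length :=
        Finset.le_sup (f := fun s => (w s).length) (hl s List.mem_cons_self)
      rw [List.length_append, List.length_cons, Nat.mul_succ]
      omega

theorem main (S : Finset G) (hsym : ∀ s ∈ S, s⁻¹ ∈ S)
    (hgenS : Subgroup.closure (S : Set G) = ⊤)
    (hfin : ∃ V : Submodule ℝ (G → ℝ), FiniteDimensional ℝ V ∧
        ∀ f : G → ℝ,
          (∀ g : G, ∑ s ∈ S, f (g * s) = (S.card : ℝ) * f g) →
          (∃ C : ℝ, ∀ g : G, ∀ s ∈ S, |f (g * s) - f g| ≤ C) →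
          f ∈ V) (H : Subgroup G) (hH : H.FiniteIndex) (χ : H →* Multiplicative ℤ)
    (hχ : Function.Surjective χ) :
    χ.ker.FG ∧ ∀ T : Finset H, Subgroup.closure (T : Set H) = χ.ker →
      ∀ c : ℝ, 0 < c → ∃ C : ℝ, ∀ l : List G, (∀ s ∈ l, s ∈ S) →
        ∀ y : H, y ∈ χ.ker → (y : G) = l.prod →
          ∃ l' : List H, (∀ t ∈ l', t ∈ T ∨ t⁻¹ ∈ T) ∧ l'.prod = y ∧
            (l'.length : ℝ) ≤ C * Real.exp (c * l.length) := by
  have hG : FinG G := finG_of_lhf S hsym hgenS hfin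
  refine ⟨ker_fg hG hH χ, fun T hT c hc => ?_⟩
  obtain ⟨ι, _, σ, ⟨⟨τ, hτ⟩, ⟨i0, hi0⟩, hgen⟩, hFin⟩ := hG
  haveI : Nonempty ι := ⟨i0⟩
  obtain ⟨t, ht⟩ := hχ (Multiplicative.ofAdd 1)
  have ht' : iv χ t = 1 := by simp [iv, ht]
  obtain ⟨K, hK⟩ := exists_word_bound hgen S
  obtain ⟨C, hC0, hC⟩ := dist_sigma hFin hτ hi0 hgen hH χ ht' hT
    (c := c / (K + 1)) (by positivity)
  refine ⟨C, fun l hl y hy hyl => ?_⟩
  obtain ⟨l', h1, h2⟩ := hK l hl
  have h3 := hC l' y hy (by rw [hyl, h1])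
  obtain ⟨w, hw1, hw2, hw3⟩ := wl_spec (T := (T : Set H)) (x := y) (by rw [hT]; exact hy)
  refine ⟨w, fun t ht => by simpa using hw1 t ht, hw2, ?_⟩
  have h4 : (w.length : ℝ) ≤ wl (T : Set H) y := by exact_mod_cast hw3
  refine h4.trans (h3.trans ?_)
  apply mul_le_mul_of_nonneg_left _ hC0
  apply Real.exp_le_exp.mpr
  have h5 : (l'.length : ℝ) ≤ K * l.length := by exact_mod_cast h2
  have h6 : (0 : ℝ) ≤ l.length := Nat.cast_nonneg _
  rw [div_mul_eq_mul_div, div_le_iff₀ (by positivity)]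
  nlinarith

end Pool.Agent.LHF81
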